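import Pool.Agent.Results.MP_31ff53_gt.NotKSpace

set_option autoImplicit false

/-!
# Spaces with a cocompact pretty base which are not determined by few compact sets
-/

open Set Filter Topology TopologicalSpace Cardinal

namespace Pool.Agent.Results.MP_31ff53_gt.NotDetermined

open Pool.Agent.Helper614.PB
open Pool.Agent.Results.MP_31ff53_gt.NotKSpace

/-- Basically disconnected: zero-dimensional Hausdorff, and the closure of the union of countably
many clopen sets is clopen. -/
def IsBasicallyDisconnected (X : Type*) [TopologicalSpace X] : Prop :=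
  T2Space X ∧ IsTopologicalBasis {U : Set X | IsClopen U} ∧
    ∀ 𝒞 : Set (Set X), 𝒞.Countable → (∀ U ∈ 𝒞, IsClopen U) → IsClopen (closure (⋃₀ 𝒞))

variable (P : Type)

/-- A set of more than `max(𝔠, |P|)` elements. -/
abbrev DD : Type := Set (P ⊕ ℝ)

abbrev kap : Cardinal.{0} := #(P ⊕ ℝ)

theorem c_le : 𝔠 ≤ kap P := by
  rw [← Cardinal.mk_real]
  exact Cardinal.mk_le_of_injective (f := fun x => (Sum.inr x : P ⊕ ℝ)) Sum.inr_injective

theorem P_le : #P ≤ kap P :=
  Cardinal.mk_le_of_injective (f := fun x => (Sum.inl x : P ⊕ ℝ)) Sum.inl_injective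

theorem a0 : ℵ₀ ≤ kap P := Cardinal.aleph0_le_continuum.trans (c_le P)

theorem a1 : kap P < #(DD P) := by
  rw [Cardinal.mk_set]
  exact Cardinal.cantor _

/-- The one-point system. -/
abbrev uu : Unit → Filter (DD P) := fun _ => coLE (DD P) (kap P) (a0 P)

theorem good : Good (fun _ : Unit => (Set.univ : Set (DD P))) (uu P) where
  mem := fun _ => Filter.univ_mem
  cocount := fun _ _ hC => cocount_coLE hC
  nebot := fun _ => neBot_coLE (a1 P)
  ad := fun i j hij => (hij (Subsingleton.elim i j)).elim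

/-- The space. -/
abbrev XX : Type := Sp (uu P)

variable {P}

theorem cases (x : XX P) : x = ix (uu P) () ∨ ∃ C ∈ flt (uu P) x, C.Countable := by
  rcases x with ⟨p, C, hC, hCc⟩ | ⟨w, S, hS, hSc⟩
  · exact Or.inr ⟨C, hC, hCc⟩
  · left
    have : w = pure () := by
      apply Ultrafilter.coe_injective
      have h1 := w.neBot
      have h2 : (w : Filter Unit) ≤ pure () := by
        rw [Filter.le_pure_iff]
        have : ({()} : Set Unit) = Set.univ := by ext; simp
        rw [this]; exact Filter.univ_mem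
      exact le_antisymm h2 (by
        have := (pure () : Ultrafilter Unit).unique h2
        rw [this])
    subst this
    rfl

theorem closure_clopen (𝒞 : Set (Set (XX P))) (hc : 𝒞.Countable) (h : ∀ U ∈ 𝒞, IsClopen U) :
    IsClopen (closure (⋃₀ 𝒞)) := by
  have hdec : ∀ i, tr (⋃₀ 𝒞) ∈ uu P i ∨ (tr (⋃₀ 𝒞))ᶜ ∈ uu P i := by
    intro i
    by_cases hex : ∃ U ∈ 𝒞, tr U ∈ uu P i
    · obtain ⟨U, hU, hUi⟩ := hex
      left
      refine Filter.mem_of_superset hUi fun d hd => ?_
      exact ⟨U, hU, hd⟩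
    · right
      push Not at hex
      have h1 : ∀ U ∈ 𝒞, #(tr U) ≤ kap P := fun U hU =>
        compl_mem_coLE.1 ((decided_tr (h U hU) i).resolve_left (hex U hU))
      refine compl_mem_coLE.2 ?_
      have h2 : tr (⋃₀ 𝒞) ⊆ ⋃ U : 𝒞, tr U.1 := by
        rintro d ⟨U, hU, hd⟩
        exact mem_iUnion.2 ⟨⟨U, hU⟩, hd⟩
      refine (Cardinal.mk_le_mk_of_subset h2).trans ?_
      refine mk_iUnion_le_of (a0 P) ?_ _ fun U => h1 U.1 U.2
      exact (Cardinal.le_aleph0_iff_set_countable.2 hc).trans (a0 P)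
  rw [closure_sUnion (good P).nebot 𝒞 h hdec]
  exact isClopen_hat_of_decided (good P).nebot hdec

theorem small {E : Set (DD P)} (hE : #E ≤ kap P) :
    IsClopen (hat (uu P) E) ∧ ix (uu P) () ∉ hat (uu P) E := by
  have h1 : Eᶜ ∈ uu P () := compl_mem_coLE.2 hE
  refine ⟨isClopen_hat_of_decided (good P).nebot fun i => Or.inr h1, fun h2 => ?_⟩
  have h3 := Filter.inter_mem (ix_mem_hat.1 h2) h1
  rw [inter_compl_self] at h3
  exact ((good P).nebot ()).ne (Filter.empty_mem_iff_bot.1 h3)

theorem compact_in_small {E : Set (DD P)} (hE : #E ≤ kap P) {K : Set (XX P)} (hK : IsCompact K) :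
    ∃ C : Set (DD P), C.Countable ∧ K ∩ hat (uu P) E ⊆ hat (uu P) C := by
  refine exists_countable_of_isCompact (hK.inter_right (small hE).1.isClosed) ?_
  rintro x ⟨-, hx⟩
  rcases cases x with h | h
  · rw [h] at hx; exact ((small hE).2 hx).elim
  · exact h

/-- compact sets meet the set of countably supported points in a subset of `hat C`, `C`
countable -/
theorem kclosed (K : Set (XX P)) (hK : IsCompact K) :
    ∃ C : Set (DD P), C.Countable ∧ K \ {ix (uu P) ()} ⊆ hat (uu P) C := by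
  classical
  let Q : Set (Set (Set (DD P))) := {𝒯 | (∀ C ∈ 𝒯, C.Countable ∧ (K ∩ hat (uu P) C).Nonempty) ∧
    𝒯.PairwiseDisjoint id}
  obtain ⟨𝒯, h𝒯, hmax⟩ : ∃ 𝒯, Maximal (fun 𝒯 => 𝒯 ∈ Q) 𝒯 := by
    refine zorn_subset Q ?_
    intro c hc hchain
    refine ⟨⋃₀ c, ⟨?_, ?_⟩, fun s hs => subset_sUnion_of_mem hs⟩
    · rintro C ⟨s, hs, hC⟩; exact (hc hs).1 C hC
    · exact (Set.pairwiseDisjoint_sUnion hchain.directedOn).2 fun s hs => (hc hs).2
  by_cases hcount : 𝒯.Countable
  · refine ⟨⋃₀ 𝒯, hcount.sUnion fun C hC => (h𝒯.1 C hC).1, ?_⟩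
    rintro x ⟨hxK, hx⟩
    rcases cases x with h | ⟨C, hC, hCc⟩
    · exact (hx h).elim
    by_contra hcon
    have hxE : C \ ⋃₀ 𝒯 ∈ flt (uu P) x := by
      have hTc : (⋃₀ 𝒯).Countable := hcount.sUnion fun C hC => (h𝒯.1 C hC).1
      have h1 : x ∈ (hat (uu P) (⋃₀ 𝒯))ᶜ := hcon
      rw [compl_hat (good P).nebot fun i => Or.inr (cocount_coLE hTc)] at h1
      exact Filter.inter_mem hC h1
    have hmem : insert (C \ ⋃₀ 𝒯) 𝒯 ∈ Q := by
      refine ⟨?_, ?_⟩
      · rintro A (rfl | hA)
        · exact ⟨hCc.mono sdiff_subset, x, hxK, hxE⟩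
        · exact h𝒯.1 A hA
      · refine h𝒯.2.insert fun A hA hne => ?_
        simp only [id]
        rw [Set.disjoint_left]
        intro d hd hdA
        exact hd.2 ⟨A, hA, hdA⟩
    have hin : C \ ⋃₀ 𝒯 ∈ 𝒯 := hmax hmem (subset_insert _ _) (mem_insert _ _)
    have hemp : C \ ⋃₀ 𝒯 = ∅ := by
      ext d
      simp only [mem_empty_iff_false, iff_false]
      intro hd
      exact hd.2 ⟨_, hin, hd⟩
    rw [hemp] at hxE
    exact (flt_neBot (good P).nebot x).ne (Filter.empty_mem_iff_bot.1 hxE)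
  · exfalso
    have h1 : ℵ₀ < #𝒯 := by
      by_contra h
      exact hcount (Cardinal.le_aleph0_iff_set_countable.1 (not_lt.1 h))
    obtain ⟨𝒮, h𝒮, h𝒮c⟩ : ∃ 𝒮 ⊆ 𝒯, #𝒮 = ℵ₁ := by
      rw [← Cardinal.le_mk_iff_exists_subset]
      rw [← Cardinal.succ_aleph0]
      exact Order.succ_le_of_lt h1
    have hal : ℵ₁ ≤ kap P := Cardinal.aleph_one_le_continuum.trans (c_le P)
    have hE : #(⋃₀ 𝒮 : Set (DD P)) ≤ kap P := by
      rw [Set.sUnion_eq_iUnion]
      refine mk_iUnion_le_of (a0 P) (h𝒮c.le.trans hal) _ fun C => ?_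
      exact (Cardinal.le_aleph0_iff_set_countable.2 (h𝒯.1 C.1 (h𝒮 C.2)).1).trans (a0 P)
    obtain ⟨C, hC, hKC⟩ := compact_in_small hE hK
    have hmeet : ∀ A : 𝒮, ∃ d ∈ C, d ∈ A.1 := by
      intro A
      obtain ⟨x, hxK, hxA⟩ := (h𝒯.1 A.1 (h𝒮 A.2)).2
      have h2 : x ∈ hat (uu P) C := hKC ⟨hxK, hat_mono (subset_sUnion_of_mem A.2) hxA⟩
      have h3 : C ∩ A.1 ∈ flt (uu P) x := Filter.inter_mem h2 hxA
      have h4 : (C ∩ A.1).Nonempty := by
        by_contra h5
        rw [Set.not_nonempty_iff_eq_empty] at h5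
        rw [h5] at h3
        exact (flt_neBot (good P).nebot x).ne (Filter.empty_mem_iff_bot.1 h3)
      obtain ⟨d, hd1, hd2⟩ := h4
      exact ⟨d, hd1, hd2⟩
    choose f hf1 hf2 using hmeet
    have hinj : Function.Injective fun A : 𝒮 => (⟨f A, hf1 A⟩ : C) := by
      intro A B hAB
      have h5 : f A = f B := congrArg Subtype.val hAB
      by_contra hne
      have h6 : (A.1 : Set (DD P)) ≠ B.1 := fun h => hne (Subtype.ext h)
      have h7 := h𝒯.2 (h𝒮 A.2) (h𝒮 B.2) h6
      exact Set.disjoint_left.1 h7 (hf2 A) (h5 ▸ hf2 B)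
    have h8 := Cardinal.mk_le_of_injective hinj
    rw [h𝒮c] at h8
    exact absurd (h8.trans (Cardinal.le_aleph0_iff_set_countable.2 hC))
      (not_le.2 Cardinal.aleph0_lt_aleph_one)

/-- The special point is not isolated. -/
theorem not_open : ¬ IsOpen ({ix (uu P) ()} : Set (XX P)) := by
  intro hop
  have h1 := trace_mem hop (mem_singleton _)
  have h2 : {d | pt (uu P) d ∈ ({ix (uu P) ()} : Set (XX P))} = ∅ := by
    ext d
    simp only [mem_ofPred_eq, mem_singleton_iff, mem_empty_iff_false, iff_false]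
    intro h3
    exact Sum.inl_ne_inr h3
  rw [h2] at h1
  exact (flt_neBot (good P).nebot _).ne (Filter.empty_mem_iff_bot.1 h1)

/-- Unions of at most `|P|` compact sets and of a set of at most `|P|` points, without the special
point, lie in a clopen set not containing the special point. -/
theorem small_union (K : P → Set (XX P)) (hK : ∀ p, IsCompact (K p)) :
    ∃ H : Set (XX P), IsClopen H ∧ ix (uu P) () ∉ H ∧ (⋃ p, K p) \ {ix (uu P) ()} ⊆ H := by
  choose C hC hKC using fun p => kclosed (K p) (hK p)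
  have hE : #(⋃ p, C p) ≤ kap P := mk_iUnion_le_of (a0 P) (P_le P) _ fun p =>
    (Cardinal.le_aleph0_iff_set_countable.2 (hC p)).trans (a0 P)
  refine ⟨hat (uu P) (⋃ p, C p), (small hE).1, (small hE).2, ?_⟩
  rintro x ⟨hx, hne⟩
  obtain ⟨p, hp⟩ := mem_iUnion.1 hx
  exact hat_mono (subset_iUnion C p) (hKC p ⟨hp, hne⟩)

/-- **Spaces with a cocompact pretty base need not be determined by any number of compact sets.**

For every set `P` there is a basically disconnected Tychonoff space `X` with a cocompact pretty base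
and a point `x` of `X` which is not isolated, such that `x` is isolated in `{x} ∪ S` for every union
`S` of a family of compact sets indexed by `P`.  So `X` is not a k-space; it has a subset `A` which
is not closed although its intersection with each such union `S` is closed in `S`; and it has a
discontinuous real function whose restrictions to all such unions are continuous (in particular
it is not a `k_ℝ`-space). -/
theorem result : ∀ P : Type, ∃ (X : Type) (_ : TopologicalSpace X), T35Space X ∧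
    HasCocompactPrettyBase X ∧ IsBasicallyDisconnected X ∧ ¬ IsKSpace X ∧
    (∃ x : X, ¬ IsOpen {x} ∧
      ∀ K : P → Set X, (∀ p, IsCompact (K p)) → x ∉ closure ((⋃ p, K p) \ {x})) ∧
    (∃ A : Set X, ¬ IsClosed A ∧ ∀ K : P → Set X, (∀ p, IsCompact (K p)) →
      IsClosed {y : (⋃ p, K p : Set X) | (y : X) ∈ A}) ∧
    (∃ f : X → ℝ, ¬ Continuous f ∧ (∀ K : Set X, IsCompact K → ContinuousOn f K) ∧
      ∀ K : P → Set X, (∀ p, IsCompact (K p)) → ContinuousOn f (⋃ p, K p)) := by
  classical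
  intro P
  have hcl : ∀ S H : Set (XX P), IsClopen H → ix (uu P) () ∉ H → S \ {ix (uu P) ()} ⊆ H →
      IsClosed {y : S | (y : XX P) ∈ ({ix (uu P) ()}ᶜ : Set (XX P))} := by
    intro S H h1 h2 h3
    have h4 : {y : S | (y : XX P) ∈ ({ix (uu P) ()}ᶜ : Set (XX P))} = Subtype.val ⁻¹' H := by
      ext y
      constructor
      · intro hy
        exact h3 ⟨y.2, hy⟩
      · intro hy hy'
        rw [mem_singleton_iff] at hy'
        apply h2
        rw [← hy']
        exact hy
    rw [h4]
    exact h1.isClosed.preimage continuous_subtype_val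
  have hcont : ∀ S H : Set (XX P), IsClopen H → ix (uu P) () ∉ H → S \ {ix (uu P) ()} ⊆ H →
      ContinuousOn (fun y : XX P => if y = ix (uu P) () then (1 : ℝ) else 0) S := by
    intro S H h1 h2 h3
    have h4 : Continuous (fun y : XX P => if y ∈ H then (0 : ℝ) else 1) := by
      apply Continuous.if _ continuous_const continuous_const
      intro a ha
      have h5 : frontier {y : XX P | y ∈ H} = ∅ := h1.frontier_eq
      rw [h5] at ha
      exact absurd ha (notMem_empty _)
    refine h4.continuousOn.congr fun y hy => ?_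
    by_cases hyx : y = ix (uu P) ()
    · simp [hyx, h2]
    · have : y ∈ H := h3 ⟨hy, hyx⟩
      simp [hyx, this]
  have hsingle : ∀ K : Set (XX P), IsCompact K → ∃ H : Set (XX P), IsClopen H ∧
      ix (uu P) () ∉ H ∧ K \ {ix (uu P) ()} ⊆ H := by
    intro K hK
    obtain ⟨C, hC, hKC⟩ := kclosed K hK
    have := small (P := P) ((Cardinal.le_aleph0_iff_set_countable.2 hC).trans (a0 P))
    exact ⟨_, this.1, this.2, hKC⟩
  refine ⟨XX P, inferInstance, t35 (good P), ?_, ⟨t2 (good P), ?_, closure_clopen⟩, ?_, ?_, ?_, ?_⟩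
  · refine ⟨hat (uu P) '' Lat (uu P) (fun _ => Set.univ), ⟨isBasis_lat (good P), ?_, ?_⟩,
      cocompact (good P)⟩
    · rintro _ ⟨E, hE, rfl⟩; exact isClopen_hat (good P) hE
    · intro 𝒞 h𝒞 𝒟 h𝒟 hc hd
      exact nested (good P) 𝒞 𝒟 h𝒞 h𝒟 hc hd
  · refine isTopologicalBasis_of_isOpen_of_nhds (fun U hU => hU.2) ?_
    intro x U hx hU
    obtain ⟨V, ⟨E, hE, rfl⟩, hxV, hVU⟩ :=
      (isBasis_lat (good P)).exists_subset_of_mem_open hx hU
    exact ⟨_, isClopen_hat (good P) hE, hxV, hVU⟩
  · intro hk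
    have h1 := hk ({ix (uu P) ()}ᶜ) fun K hK => by
      obtain ⟨H, h1, h2, h3⟩ := hsingle K hK
      exact hcl K H h1 h2 h3
    exact not_open (by simpa using h1.isOpen_compl)
  · refine ⟨ix (uu P) (), not_open, fun K hK hx => ?_⟩
    obtain ⟨H, h1, h2, h3⟩ := small_union K hK
    exact h2 (closure_minimal h3 h1.isClosed hx)
  · refine ⟨{ix (uu P) ()}ᶜ, fun h => not_open (by simpa using h.isOpen_compl), fun K hK => ?_⟩
    obtain ⟨H, h1, h2, h3⟩ := small_union K hK
    exact hcl _ H h1 h2 h3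
  · refine ⟨fun y => if y = ix (uu P) () then (1 : ℝ) else 0, ?_, ?_, ?_⟩
    · intro hf
      apply not_open (P := P)
      have h1 : IsOpen ((fun y : XX P => if y = ix (uu P) () then (1 : ℝ) else 0) ⁻¹' {0}ᶜ) :=
        isOpen_compl_singleton.preimage hf
      convert h1 using 1
      ext y
      by_cases hy : y = ix (uu P) () <;> simp [hy]
    · intro K hK
      obtain ⟨H, h1, h2, h3⟩ := hsingle K hK
      exact hcont K H h1 h2 h3
    · intro K hK
      obtain ⟨H, h1, h2, h3⟩ := small_union K hK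
      exact hcont _ H h1 h2 h3

end Pool.Agent.Results.MP_31ff53_gt.NotDetermined
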